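import Mathlib

/-!
# Long geodesics in antipodal colourings of the middle layer

`V` has `2 a` elements and `red` is a predicate on the `a`-subsets such that `A` or its complement
is red for every `a`-subset `A`. A geodesic of length `k` is a walk of `k` steps through red
`a`-sets, consecutive sets differing in at most two elements, whose ends differ in `2 k` elements.
If there is one of length `k <= 3`, and `k + 3 <= a`, then there is a longer one. So there is one
of length `min (a - 2) 4` at least.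
-/

set_option autoImplicit false

namespace Pool.Agent.Lib.MP_6805b2_co.GE

open Finset

variable {V : Type} [DecidableEq V]

/-- a walk of `k` steps through red sets of size `a` -/
def Wk (red : Finset V → Prop) (a : ℕ) : ℕ → Finset V → Finset V → Prop
  | 0, A, B => A = B ∧ A.card = a ∧ red A
  | (k + 1), A, B => (A.card = a ∧ red A) ∧ ∃ A', (symmDiff A A').card ≤ 2 ∧ Wk red a k A' B

theorem Wk.fst {red : Finset V → Prop} {a k : ℕ} {A B : Finset V} (h : Wk red a k A B) :
    A.card = a ∧ red A := by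
  cases k with
  | zero => exact h.2
  | succ k => exact h.1

theorem Wk.lst {red : Finset V → Prop} {a k : ℕ} {A B : Finset V} (h : Wk red a k A B) :
    B.card = a ∧ red B := by
  induction k generalizing A with
  | zero => obtain ⟨rfl, h⟩ := h; exact h
  | succ k ih =>
    obtain ⟨_, A', _, h2⟩ := h
    exact ih h2

theorem Wk.snoc {red : Finset V → Prop} {a k : ℕ} {A B C : Finset V} (h : Wk red a k A B)
    (hBC : (symmDiff B C).card ≤ 2) (hC : C.card = a ∧ red C) : Wk red a (k + 1) A C := by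
  induction k generalizing A with
  | zero =>
    obtain ⟨rfl, h⟩ := h
    exact ⟨h, C, hBC, rfl, hC⟩
  | succ k ih =>
    obtain ⟨h1, A', h2, h3⟩ := h
    exact ⟨h1, A', h2, ih h3⟩

theorem Wk.dist {red : Finset V → Prop} {a k : ℕ} {A B : Finset V} (h : Wk red a k A B) :
    (symmDiff A B).card ≤ 2 * k := by
  induction k generalizing A with
  | zero => obtain ⟨rfl, _⟩ := h; simp
  | succ k ih =>
    obtain ⟨_, A', h2, h3⟩ := h
    have h4 := ih h3
    have h5 : symmDiff A B ⊆ symmDiff A A' ∪ symmDiff A' B := by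
      intro z hz
      simp only [mem_union, mem_symmDiff] at hz ⊢
      tauto
    have h6 := (card_le_card h5).trans (card_union_le _ _)
    omega

/-- a red geodesic of length `k` -/
def Geo (red : Finset V → Prop) (a k : ℕ) : Prop :=
  ∃ A B, Wk red a k A B ∧ 2 * k ≤ (symmDiff A B).card

theorem Geo.drop {red : Finset V → Prop} {a k : ℕ} (h : Geo red a (k + 1)) : Geo red a k := by
  obtain ⟨A, B, ⟨_, A', h2, h3⟩, h4⟩ := h
  refine ⟨A', B, h3, ?_⟩
  have h5 : symmDiff A B ⊆ symmDiff A A' ∪ symmDiff A' B := by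
    intro z hz
    simp only [mem_union, mem_symmDiff] at hz ⊢
    tauto
  have h6 := (card_le_card h5).trans (card_union_le _ _)
  omega

theorem Geo.mono {red : Finset V → Prop} {a k l : ℕ} (h : Geo red a l) (hkl : k ≤ l) :
    Geo red a k := by
  induction l, hkl using Nat.le_induction with
  | base => exact h
  | succ l _ ih => exact ih h.drop

theorem sd_cancel (M D D' : Finset V) : symmDiff (symmDiff M D) (symmDiff M D') = symmDiff D D' := by
  ext z
  simp only [mem_symmDiff]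
  tauto

theorem sd_card2 (M : Finset V) (p q : V) (hp : p ∈ M) (hq : q ∉ M) :
    (symmDiff M {p, q}).card = M.card := by
  have h1 : symmDiff M {p, q} = insert q (M.erase p) := by
    ext z
    simp only [mem_symmDiff, mem_insert, mem_singleton, mem_erase]
    constructor
    · rintro (⟨h1, h2⟩ | ⟨h1 | h1, h2⟩)
      · right
        exact ⟨fun h => h2 (Or.inl h), h1⟩
      · subst h1; exact absurd hp h2
      · exact Or.inl h1
    · rintro (h1 | ⟨h1, h2⟩)
      · subst h1; exact Or.inr ⟨Or.inr rfl, hq⟩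
      · refine Or.inl ⟨h2, ?_⟩
        rintro (h | h)
        · exact h1 h
        · subst h; exact hq h2
  have hpos : 0 < M.card := card_pos.2 ⟨p, hp⟩
  rw [h1, card_insert_of_notMem (by simp [hq]), card_erase_of_mem hp]
  omega

theorem dj2 {x y p q : V} (h1 : x ≠ p) (h2 : x ≠ q) (h3 : y ≠ p) (h4 : y ≠ q) :
    Disjoint ({x, y} : Finset V) {p, q} := by
  rw [Finset.disjoint_left]
  intro z
  simp only [mem_insert, mem_singleton]
  rintro (h | h) (h' | h')
  · exact h1 (h.symm.trans h')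
  · exact h2 (h.symm.trans h')
  · exact h3 (h.symm.trans h')
  · exact h4 (h.symm.trans h')

theorem sd_card4 (M : Finset V) (x y p q : V) (hx : x ∈ M) (hy : y ∉ M) (hp : p ∈ M) (hq : q ∉ M)
    (hxp : x ≠ p) (hyq : y ≠ q) : (symmDiff M {x, y, p, q}).card = M.card := by
  have e1 : x ≠ q := ne_of_mem_of_not_mem hx hq
  have e2 : y ≠ p := (ne_of_mem_of_not_mem hp hy).symm
  have h0 : symmDiff ({x, y} : Finset V) {p, q} = {x, y, p, q} := by
    rw [(dj2 hxp e1 e2 hyq).symmDiff_eq_sup, sup_eq_union, insert_union, singleton_union]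
  have h1 : symmDiff M {x, y, p, q} = symmDiff (symmDiff M {x, y}) {p, q} := by
    rw [symmDiff_assoc, h0]
  rw [h1, sd_card2 (symmDiff M {x, y}) p q, sd_card2 M x y hx hy]
  · simp only [mem_symmDiff, mem_insert, mem_singleton]
    refine Or.inl ⟨hp, ?_⟩
    rintro (h | h)
    · exact hxp h.symm
    · exact e2 h.symm
  · simp only [mem_symmDiff, mem_insert, mem_singleton]
    rintro (⟨h, _⟩ | ⟨h | h, _⟩)
    · exact hq h
    · exact e1 h.symm
    · exact hyq h.symm

theorem sd_two (D : Finset V) (p q : V) (h : ∀ z ∈ D, z = p ∨ z = q) : D.card ≤ 2 := by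
  have h1 : D ⊆ {p, q} := by
    intro z hz
    simp only [mem_insert, mem_singleton]
    exact h z hz
  exact (card_le_card h1).trans card_le_two

/-- four elements, one in each of the parts `A \ B`, `B \ A`, `A ∩ B` and outside `A ∪ B` -/
structure Cfg (A B : Finset V) (x y p o : V) : Prop where
  hx : x ∈ A ∧ x ∉ B
  hy : y ∉ A ∧ y ∈ B
  hp : p ∈ A ∧ p ∈ B
  ho : o ∉ A ∧ o ∉ B

theorem Cfg.card4 {A B : Finset V} {x y p o : V} (h : Cfg A B x y p o) :
    ({x, y, p, o} : Finset V).card = 4 := by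
  obtain ⟨⟨a1, a2⟩, ⟨a3, a4⟩, ⟨a5, a6⟩, ⟨a7, a8⟩⟩ := h
  have e1 : x ≠ y := ne_of_mem_of_not_mem a1 a3
  have e2 : x ≠ p := (ne_of_mem_of_not_mem a6 a2).symm
  have e3 : x ≠ o := ne_of_mem_of_not_mem a1 a7
  have e4 : y ≠ p := (ne_of_mem_of_not_mem a5 a3).symm
  have e5 : y ≠ o := ne_of_mem_of_not_mem a4 a8
  have e6 : p ≠ o := ne_of_mem_of_not_mem a5 a7
  rw [card_insert_of_notMem, card_insert_of_notMem, card_insert_of_notMem, card_singleton]
  · simpa using e6
  · simp [e4, e5]
  · simp [e1, e2, e3]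

theorem Cfg.dj {A B : Finset V} {x y p o x' y' p' o' : V} (h : Cfg A B x y p o)
    (h' : Cfg A B x' y' p' o') (hx : x ≠ x') (hy : y ≠ y') (hp : p ≠ p') (ho : o ≠ o') :
    Disjoint ({x, y, p, o} : Finset V) {x', y', p', o'} := by
  obtain ⟨⟨a1, a2⟩, ⟨a3, a4⟩, ⟨a5, a6⟩, ⟨a7, a8⟩⟩ := h
  obtain ⟨⟨b1, b2⟩, ⟨b3, b4⟩, ⟨b5, b6⟩, ⟨b7, b8⟩⟩ := h'
  rw [Finset.disjoint_left]
  intro z
  simp only [mem_insert, mem_singleton]
  rintro (h | h | h | h) (h' | h' | h' | h') <;> subst h
  all_goals first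
    | exact hx h'
    | exact hy h'
    | exact hp h'
    | exact ho h'
    | (subst h'; contradiction)

theorem Cfg.card8 {A B : Finset V} {x y p o x' y' p' o' : V} (h : Cfg A B x y p o)
    (h' : Cfg A B x' y' p' o') (hx : x ≠ x') (hy : y ≠ y') (hp : p ≠ p') (ho : o ≠ o') :
    (symmDiff ({x, y, p, o} : Finset V) {x', y', p', o'}).card = 8 := by
  rw [(h.dj h' hx hy hp ho).symmDiff_eq_sup, sup_eq_union,
    card_union_of_disjoint (h.dj h' hx hy hp ho), h.card4, h'.card4]

theorem Cfg.card6 {A B : Finset V} {x y p o x' y' p' o' : V} (h : Cfg A B x y p o)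
    (h' : Cfg A B x' y' p' o') (hx : x ≠ x') (hy : y ≠ y') (hp : p ≠ p') (ho : o ≠ o') :
    (symmDiff ({x, y, p, o} : Finset V) {p', o'}).card = 6 := by
  have h1 : Disjoint ({x, y, p, o} : Finset V) {p', o'} :=
    Finset.disjoint_of_subset_right (by intro z hz; simp only [mem_insert, mem_singleton] at hz ⊢; tauto)
      (h.dj h' hx hy hp ho)
  have h2 : ({p', o'} : Finset V).card = 2 := card_pair (ne_of_mem_of_not_mem h'.hp.1 h'.ho.1)
  rw [h1.symmDiff_eq_sup, sup_eq_union, card_union_of_disjoint h1, h.card4, h2]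

theorem Cfg.card22 {A B : Finset V} {x y p o x' y' p' o' : V} (h : Cfg A B x y p o)
    (h' : Cfg A B x' y' p' o') (hp : p ≠ p') (ho : o ≠ o') :
    (symmDiff ({p, o} : Finset V) {p', o'}).card = 4 := by
  have e1 : p ≠ o' := ne_of_mem_of_not_mem h.hp.1 h'.ho.1
  have e2 : o ≠ p' := (ne_of_mem_of_not_mem h'.hp.1 h.ho.1).symm
  have h1 := dj2 hp e1 e2 ho
  rw [h1.symmDiff_eq_sup, sup_eq_union, card_union_of_disjoint h1,
    card_pair (ne_of_mem_of_not_mem h.hp.1 h.ho.1), card_pair (ne_of_mem_of_not_mem h'.hp.1 h'.ho.1)]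

theorem Wk.one {red : Finset V → Prop} {a k : ℕ} {M D D' B : Finset V}
    (h : (symmDiff M D).card = a ∧ red (symmDiff M D)) (p q : V)
    (hpq : ∀ z ∈ symmDiff D D', z = p ∨ z = q) (hw : Wk red a k (symmDiff M D') B) :
    Wk red a (k + 1) (symmDiff M D) B := by
  refine ⟨h, symmDiff M D', ?_, hw⟩
  rw [sd_cancel]
  exact sd_two _ p q hpq

theorem cube {red : Finset V → Prop} {a : ℕ} {A B : Finset V} (hB : B.card = a)
    {x y p o x' y' p' o' : V} (h : Cfg A B x y p o) (h' : Cfg A B x' y' p' o') (hx : x ≠ x')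
    (hy : y ≠ y') (hp : p ≠ p') (ho : o ≠ o')
    (hr : ∀ u v w t, (u = x ∨ u = x') → (v = y ∨ v = y') → (w = p ∨ w = p') → (t = o ∨ t = o') →
      red (symmDiff B {u, v, w, t})) : Geo red a 4 := by
  have hc : ∀ u v w t, (u = x ∨ u = x') → (v = y ∨ v = y') → (w = p ∨ w = p') →
      (t = o ∨ t = o') → (symmDiff B {u, v, w, t}).card = a ∧ red (symmDiff B {u, v, w, t}) := by
    intro u v w t hu hv hw ht
    refine ⟨?_, hr u v w t hu hv hw ht⟩
    have b1 : u ∈ A ∧ u ∉ B := by rcases hu with rfl | rfl; exacts [h.hx, h'.hx]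
    have b2 : v ∉ A ∧ v ∈ B := by rcases hv with rfl | rfl; exacts [h.hy, h'.hy]
    have b3 : w ∈ A ∧ w ∈ B := by rcases hw with rfl | rfl; exacts [h.hp, h'.hp]
    have b4 : t ∉ A ∧ t ∉ B := by rcases ht with rfl | rfl; exacts [h.ho, h'.ho]
    rw [Finset.insert_comm u v, sd_card4 B v u w t b2.2 b1.2 b3.2 b4.2 (ne_of_mem_of_not_mem b3.1 b2.1).symm
      (ne_of_mem_of_not_mem b1.1 b4.1), hB]
  refine ⟨symmDiff B {x, y, p, o}, symmDiff B {x', y', p', o'}, ?_, ?_⟩
  · refine Wk.one (D' := {x', y, p, o}) (hc _ _ _ _ (Or.inl rfl) (Or.inl rfl) (Or.inl rfl)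
      (Or.inl rfl)) x x' (by intro z; simp only [mem_symmDiff, mem_insert, mem_singleton]; tauto) ?_
    refine Wk.one (D' := {x', y', p, o}) (hc _ _ _ _ (Or.inr rfl) (Or.inl rfl) (Or.inl rfl)
      (Or.inl rfl)) y y' (by intro z; simp only [mem_symmDiff, mem_insert, mem_singleton]; tauto) ?_
    refine Wk.one (D' := {x', y', p', o}) (hc _ _ _ _ (Or.inr rfl) (Or.inr rfl) (Or.inl rfl)
      (Or.inl rfl)) p p' (by intro z; simp only [mem_symmDiff, mem_insert, mem_singleton]; tauto) ?_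
    refine Wk.one (D' := {x', y', p', o'}) (hc _ _ _ _ (Or.inr rfl) (Or.inr rfl) (Or.inr rfl)
      (Or.inl rfl)) o o' (by intro z; simp only [mem_symmDiff, mem_insert, mem_singleton]; tauto) ?_
    exact ⟨rfl, hc _ _ _ _ (Or.inr rfl) (Or.inr rfl) (Or.inr rfl) (Or.inr rfl)⟩
  · rw [sd_cancel, h.card8 h' hx hy hp ho]

theorem path2 {red : Finset V → Prop} {a : ℕ} {A B M : Finset V}
    {x y p o x' y' p' o' : V} (h : Cfg A B x y p o) (h' : Cfg A B x' y' p' o')
    (hp : p ≠ p') (ho : o ≠ o')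
    (hub : ∀ w t, (w = p ∨ w = p') → (t = o ∨ t = o') →
      (symmDiff M {w, t}).card = a ∧ red (symmDiff M {w, t})) : Geo red a 2 := by
  refine ⟨symmDiff M {p, o}, symmDiff M {p', o'}, ?_, ?_⟩
  · refine Wk.one (D' := {p', o}) (hub _ _ (Or.inl rfl) (Or.inl rfl)) p p'
      (by intro z; simp only [mem_symmDiff, mem_insert, mem_singleton]; tauto) ?_
    refine Wk.one (D' := {p', o'}) (hub _ _ (Or.inr rfl) (Or.inl rfl)) o o'
      (by intro z; simp only [mem_symmDiff, mem_insert, mem_singleton]; tauto) ?_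
    exact ⟨rfl, hub _ _ (Or.inr rfl) (Or.inr rfl)⟩
  · rw [sd_cancel, h.card22 h' hp ho]

theorem path3 {red : Finset V → Prop} {a : ℕ} {A B M : Finset V}
    {x y p o x' y' p' o' : V} (h : Cfg A B x y p o) (h' : Cfg A B x' y' p' o') (hx : x ≠ x')
    (hy : y ≠ y') (hp : p ≠ p') (ho : o ≠ o')
    (hub : ∀ w t, (w = p ∨ w = p') → (t = o ∨ t = o') →
      (symmDiff M {w, t}).card = a ∧ red (symmDiff M {w, t}))
    (h0 : (symmDiff M {x, y, p, o}).card = a ∧ red (symmDiff M {x, y, p, o})) : Geo red a 3 := by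
  refine ⟨symmDiff M {x, y, p, o}, symmDiff M {p', o'}, ?_, ?_⟩
  · refine Wk.one (D' := {p, o}) h0 x y
      (by intro z; simp only [mem_symmDiff, mem_insert, mem_singleton]; tauto) ?_
    refine Wk.one (D' := {p', o}) (hub _ _ (Or.inl rfl) (Or.inl rfl)) p p'
      (by intro z; simp only [mem_symmDiff, mem_insert, mem_singleton]; tauto) ?_
    refine Wk.one (D' := {p', o'}) (hub _ _ (Or.inr rfl) (Or.inl rfl)) o o'
      (by intro z; simp only [mem_symmDiff, mem_insert, mem_singleton]; tauto) ?_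
    exact ⟨rfl, hub _ _ (Or.inr rfl) (Or.inr rfl)⟩
  · rw [sd_cancel, h.card6 h' hx hy hp ho]

theorem path4 {red : Finset V → Prop} {a : ℕ} {A B M : Finset V}
    {x y p o x' y' p' o' : V} (h : Cfg A B x y p o) (h' : Cfg A B x' y' p' o') (hx : x ≠ x')
    (hy : y ≠ y') (hp : p ≠ p') (ho : o ≠ o')
    (hub : ∀ w t, (w = p ∨ w = p') → (t = o ∨ t = o') →
      (symmDiff M {w, t}).card = a ∧ red (symmDiff M {w, t}))
    (h0 : (symmDiff M {x, y, p, o}).card = a ∧ red (symmDiff M {x, y, p, o}))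
    (h1 : (symmDiff M {x', y', p', o'}).card = a ∧ red (symmDiff M {x', y', p', o'})) :
    Geo red a 4 := by
  refine ⟨symmDiff M {x, y, p, o}, symmDiff M {x', y', p', o'}, ?_, ?_⟩
  · refine Wk.one (D' := {p, o}) h0 x y
      (by intro z; simp only [mem_symmDiff, mem_insert, mem_singleton]; tauto) ?_
    refine Wk.one (D' := {p', o}) (hub _ _ (Or.inl rfl) (Or.inl rfl)) p p'
      (by intro z; simp only [mem_symmDiff, mem_insert, mem_singleton]; tauto) ?_
    refine Wk.one (D' := {p', o'}) (hub _ _ (Or.inr rfl) (Or.inl rfl)) o o'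
      (by intro z; simp only [mem_symmDiff, mem_insert, mem_singleton]; tauto) ?_
    refine Wk.one (D' := {x', y', p', o'}) (hub _ _ (Or.inr rfl) (Or.inr rfl)) x' y'
      (by intro z; simp only [mem_symmDiff, mem_insert, mem_singleton]; tauto) ?_
    exact ⟨rfl, h1⟩
  · rw [sd_cancel, h.card8 h' hx hy hp ho]

theorem compl_sd [Fintype V] (B D : Finset V) : (symmDiff B D)ᶜ = symmDiff Bᶜ D := by
  ext z
  simp only [mem_compl, mem_symmDiff]
  tauto

/-- a geodesic of length at most three is not of maximal length -/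
theorem step [Fintype V] {red : Finset V → Prop} {a : ℕ} (hV : Fintype.card V = 2 * a)
    (hred : ∀ A : Finset V, A.card = a → red A ∨ red Aᶜ) (k : ℕ) (hk : k ≤ 3) (hka : k + 3 ≤ a)
    (h : Geo red a k) : ∃ l, k < l ∧ Geo red a l := by
  by_contra hno
  push Not at hno
  obtain ⟨A, B, hw, hd⟩ := h
  have hA := hw.fst.1
  have hB := hw.lst.1
  have hd2 := hw.dist
  have c1 : (symmDiff A B).card = (A \ B).card + (B \ A).card := by
    have : symmDiff A B = (A \ B) ∪ (B \ A) := rfl
    rw [this, card_union_of_disjoint]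
    exact disjoint_sdiff_sdiff
  have c2 : (A \ B).card + (A ∩ B).card = A.card := card_sdiff_add_card_inter A B
  have c3 : (B \ A).card + (A ∩ B).card = B.card := by
    rw [inter_comm]; exact card_sdiff_add_card_inter B A
  have c4 : (A ∪ B).card + (A ∩ B).card = A.card + B.card := card_union_add_card_inter A B
  have c5 : (A ∪ B)ᶜ.card = 2 * a - (A ∪ B).card := by rw [card_compl, hV]
  have cX : (A \ B).card = k := by omega
  have cY : (B \ A).card = k := by omega
  have cK : 3 ≤ (A ∩ B).card := by omega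
  have cO : 3 ≤ (A ∪ B)ᶜ.card := by omega
  have cBc : Bᶜ.card = a := by rw [card_compl, hV]; omega
  -- the hub
  have hub : ∀ w t, w ∈ A ∩ B → t ∈ (A ∪ B)ᶜ →
      (symmDiff Bᶜ {w, t}).card = a ∧ red (symmDiff Bᶜ {w, t}) := by
    intro w t hw' ht
    simp only [mem_inter, mem_compl, mem_union, not_or] at hw' ht
    have e1 : (symmDiff Bᶜ {w, t}).card = a := by
      rw [pair_comm, sd_card2 Bᶜ t w (by simpa using ht.2) (by simpa using hw'.2), cBc]
    refine ⟨e1, ?_⟩
    have e2 : (symmDiff B {w, t}).card = a := by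
      rw [sd_card2 B w t hw'.2 ht.2, hB]
    rcases hred _ e2 with h1 | h1
    · exfalso
      refine hno (k + 1) (Nat.lt_succ_self k) ⟨A, symmDiff B {w, t}, hw.snoc ?_ ⟨e2, h1⟩, ?_⟩
      · have : symmDiff B (symmDiff B {w, t}) = ({w, t} : Finset V) := symmDiff_symmDiff_cancel_left _ _
        rw [this]
        exact card_le_two
      · rw [← symmDiff_assoc]
        have hdj : Disjoint (symmDiff A B) ({w, t} : Finset V) := by
          rw [Finset.disjoint_left]
          intro z hz hz'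
          simp only [mem_insert, mem_singleton, mem_symmDiff] at hz hz'
          rcases hz' with rfl | rfl
          · rcases hz with hz | hz
            · exact hz.2 hw'.2
            · exact hz.2 hw'.1
          · rcases hz with hz | hz
            · exact ht.1 hz.1
            · exact ht.2 hz.1
        rw [hdj.symmDiff_eq_sup, sup_eq_union, card_union_of_disjoint hdj,
          card_pair (ne_of_mem_of_not_mem hw'.1 ht.1)]
        omega
    · rw [compl_sd] at h1
      exact h1
  have mkCfg : ∀ x y p o, x ∈ A \ B → y ∈ B \ A → p ∈ A ∩ B → o ∈ (A ∪ B)ᶜ → Cfg A B x y p o := by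
    intro x y p o hx hy hp ho
    simp only [mem_inter, mem_compl, mem_union, not_or, mem_sdiff] at hx hy hp ho
    exact ⟨hx, ⟨hy.2, hy.1⟩, hp, ho⟩
  have card4 : ∀ x y p o, Cfg A B x y p o → (symmDiff Bᶜ {x, y, p, o}).card = a ∧
      (symmDiff B {x, y, p, o}).card = a := by
    intro x y p o h
    have e1 : (symmDiff B {x, y, p, o}).card = a := by
      rw [Finset.insert_comm x y, sd_card4 B y x p o h.hy.2 h.hx.2 h.hp.2 h.ho.2
        (ne_of_mem_of_not_mem h.hp.1 h.hy.1).symm (ne_of_mem_of_not_mem h.hx.1 h.ho.1), hB]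
    refine ⟨?_, e1⟩
    rw [← compl_sd, card_compl, e1, hV]
    omega
  have hno4 : ¬ Geo red a 4 := hno 4 (by omega)
  -- a cube of non-red sets at the complement gives a geodesic of length four
  have hcube : ∀ x y p o x' y' p' o', Cfg A B x y p o → Cfg A B x' y' p' o' → x ≠ x' → y ≠ y' →
      p ≠ p' → o ≠ o' → (∀ u v w t, (u = x ∨ u = x') → (v = y ∨ v = y') → (w = p ∨ w = p') →
      (t = o ∨ t = o') → ¬ red (symmDiff Bᶜ {u, v, w, t})) → False := by
    intro x y p o x' y' p' o' h h' hx hy hp ho hr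
    refine hno4 (cube hB h h' hx hy hp ho ?_)
    intro u v w t hu hv hw ht
    have b1 : u ∈ A ∧ u ∉ B := by rcases hu with rfl | rfl; exacts [h.hx, h'.hx]
    have b2 : v ∉ A ∧ v ∈ B := by rcases hv with rfl | rfl; exacts [h.hy, h'.hy]
    have b3 : w ∈ A ∧ w ∈ B := by rcases hw with rfl | rfl; exacts [h.hp, h'.hp]
    have b4 : t ∉ A ∧ t ∉ B := by rcases ht with rfl | rfl; exacts [h.ho, h'.ho]
    have hc := card4 u v w t ⟨b1, b2, b3, b4⟩
    rcases hred _ hc.2 with h1 | h1
    · exact h1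
    · rw [compl_sd] at h1
      exact absurd h1 (hr u v w t hu hv hw ht)
  rcases Nat.lt_or_ge k 2 with hk2 | hk2
  · -- short
    obtain ⟨p, hp, p', hp', hpp⟩ := one_lt_card.1 (show 1 < (A ∩ B).card by omega)
    obtain ⟨o, ho, o', ho', hoo⟩ := one_lt_card.1 (show 1 < (A ∪ B)ᶜ.card by omega)
    refine hno 2 hk2 ⟨symmDiff Bᶜ {p, o}, symmDiff Bᶜ {p', o'}, ?_, ?_⟩
    · refine Wk.one (D' := {p', o}) (hub _ _ hp ho) p p'
        (by intro z; simp only [mem_symmDiff, mem_insert, mem_singleton]; tauto) ?_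
      refine Wk.one (D' := {p', o'}) (hub _ _ hp' ho) o o'
        (by intro z; simp only [mem_symmDiff, mem_insert, mem_singleton]; tauto) ?_
      exact ⟨rfl, hub _ _ hp' ho'⟩
    · simp only [mem_inter, mem_compl, mem_union, not_or] at hp hp' ho ho'
      have e1 : p ≠ o' := ne_of_mem_of_not_mem hp.1 ho'.1
      have e2 : o ≠ p' := (ne_of_mem_of_not_mem hp'.1 ho.1).symm
      have h1 := dj2 hpp e1 e2 hoo
      rw [sd_cancel, h1.symmDiff_eq_sup, sup_eq_union, card_union_of_disjoint h1,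
        card_pair (ne_of_mem_of_not_mem hp.1 ho.1), card_pair (ne_of_mem_of_not_mem hp'.1 ho'.1)]
  · by_cases hex : ∃ x ∈ A \ B, ∃ y ∈ B \ A, ∃ p ∈ A ∩ B, ∃ o ∈ (A ∪ B)ᶜ,
        red (symmDiff Bᶜ {x, y, p, o})
    · obtain ⟨x0, hx0, y0, hy0, p0, hp0, o0, ho0, hr0⟩ := hex
      have h0 := mkCfg x0 y0 p0 o0 hx0 hy0 hp0 ho0
      have cX' : ((A \ B).erase x0).card = k - 1 := by rw [card_erase_of_mem hx0, cX]
      have cY' : ((B \ A).erase y0).card = k - 1 := by rw [card_erase_of_mem hy0, cY]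
      have cK' : 2 ≤ ((A ∩ B).erase p0).card := by rw [card_erase_of_mem hp0]; omega
      have cO' : 2 ≤ ((A ∪ B)ᶜ.erase o0).card := by rw [card_erase_of_mem ho0]; omega
      rcases Nat.lt_or_ge k 3 with hk3 | hk3
      · obtain ⟨x, hx⟩ := card_pos.1 (show 0 < ((A \ B).erase x0).card by omega)
        obtain ⟨y, hy⟩ := card_pos.1 (show 0 < ((B \ A).erase y0).card by omega)
        obtain ⟨p, hp⟩ := card_pos.1 (show 0 < ((A ∩ B).erase p0).card by omega)
        obtain ⟨o, ho⟩ := card_pos.1 (show 0 < ((A ∪ B)ᶜ.erase o0).card by omega)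
        rw [mem_erase] at hx hy hp ho
        have h1 := mkCfg x y p o hx.2 hy.2 hp.2 ho.2
        refine hno 3 hk3 (path3 h0 h1 (Ne.symm hx.1) (Ne.symm hy.1) (Ne.symm hp.1) (Ne.symm ho.1)
          ?_ ⟨(card4 _ _ _ _ h0).1, hr0⟩)
        rintro w t hw' ht'
        refine hub w t ?_ ?_
        · rcases hw' with rfl | rfl
          exacts [hp0, hp.2]
        · rcases ht' with rfl | rfl
          exacts [ho0, ho.2]
      · obtain ⟨x, hx, x', hx', hxx⟩ := one_lt_card.1 (show 1 < ((A \ B).erase x0).card by omega)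
        obtain ⟨y, hy, y', hy', hyy⟩ := one_lt_card.1 (show 1 < ((B \ A).erase y0).card by omega)
        obtain ⟨p, hp, p', hp', hpp⟩ := one_lt_card.1 (show 1 < ((A ∩ B).erase p0).card by omega)
        obtain ⟨o, ho, o', ho', hoo⟩ := one_lt_card.1 (show 1 < ((A ∪ B)ᶜ.erase o0).card by omega)
        rw [mem_erase] at hx hy hp ho hx' hy' hp' ho'
        refine hcube x y p o x' y' p' o' (mkCfg _ _ _ _ hx.2 hy.2 hp.2 ho.2)
          (mkCfg _ _ _ _ hx'.2 hy'.2 hp'.2 ho'.2) hxx hyy hpp hoo ?_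
        intro u v w t hu hv hw' ht' hr
        have b1 : u ≠ x0 ∧ u ∈ A \ B := by rcases hu with rfl | rfl; exacts [hx, hx']
        have b2 : v ≠ y0 ∧ v ∈ B \ A := by rcases hv with rfl | rfl; exacts [hy, hy']
        have b3 : w ≠ p0 ∧ w ∈ A ∩ B := by rcases hw' with rfl | rfl; exacts [hp, hp']
        have b4 : t ≠ o0 ∧ t ∈ (A ∪ B)ᶜ := by rcases ht' with rfl | rfl; exacts [ho, ho']
        have h1 := mkCfg u v w t b1.2 b2.2 b3.2 b4.2
        refine hno4 (path4 h0 h1 (Ne.symm b1.1) (Ne.symm b2.1) (Ne.symm b3.1) (Ne.symm b4.1)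
          ?_ ⟨(card4 _ _ _ _ h0).1, hr0⟩ ⟨(card4 _ _ _ _ h1).1, hr⟩)
        rintro w' t' hw2 ht2
        refine hub w' t' ?_ ?_
        · rcases hw2 with rfl | rfl
          exacts [hp0, b3.2]
        · rcases ht2 with rfl | rfl
          exacts [ho0, b4.2]
    · obtain ⟨x, hx, x', hx', hxx⟩ := one_lt_card.1 (show 1 < (A \ B).card by omega)
      obtain ⟨y, hy, y', hy', hyy⟩ := one_lt_card.1 (show 1 < (B \ A).card by omega)
      obtain ⟨p, hp, p', hp', hpp⟩ := one_lt_card.1 (show 1 < (A ∩ B).card by omega)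
      obtain ⟨o, ho, o', ho', hoo⟩ := one_lt_card.1 (show 1 < (A ∪ B)ᶜ.card by omega)
      refine hcube x y p o x' y' p' o' (mkCfg _ _ _ _ hx hy hp ho)
        (mkCfg _ _ _ _ hx' hy' hp' ho') hxx hyy hpp hoo ?_
      intro u v w t hu hv hw' ht' hr
      refine hex ⟨u, ?_, v, ?_, w, ?_, t, ?_, hr⟩
      · rcases hu with rfl | rfl; exacts [hx, hx']
      · rcases hv with rfl | rfl; exacts [hy, hy']
      · rcases hw' with rfl | rfl; exacts [hp, hp']
      · rcases ht' with rfl | rfl; exacts [ho, ho']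

/-- there is a red geodesic of length `k` if `k <= 4` and `k + 2 <= a` -/
theorem exists_geo [Fintype V] {red : Finset V → Prop} {a : ℕ} (hV : Fintype.card V = 2 * a)
    (hred : ∀ A : Finset V, A.card = a → red A ∨ red Aᶜ) (k : ℕ) (hk : k ≤ 4) (hka : k + 2 ≤ a) :
    Geo red a k := by
  have h0 : Geo red a 0 := by
    obtain ⟨A, hA⟩ := exists_subset_card_eq (s := (univ : Finset V)) (n := a)
      (by rw [card_univ, hV]; omega)
    rcases hred A hA.2 with h | h
    · exact ⟨A, A, ⟨rfl, hA.2, h⟩, by simp⟩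
    · refine ⟨Aᶜ, Aᶜ, ⟨rfl, ?_, h⟩, by simp⟩
      rw [card_compl, hV, hA.2]
      omega
  have h1 : ∀ l, l ≤ k → Geo red a l := by
    intro l
    induction l with
    | zero => exact fun _ => h0
    | succ l ih =>
      intro hl
      obtain ⟨m, hm, hg⟩ := step hV hred l (by omega) (by omega) (ih (by omega))
      exact hg.mono hm
  exact h1 k le_rfl

end Pool.Agent.Lib.MP_6805b2_co.GE
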