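import Pool.Agent.Lib.MP_6805b2_co.GE.Geo

/-!
# Tracking colours along a geodesic

`W` assigns `n d + 1` colours to every `n`-subset of a set `V` with `2 n + 2` elements, disjoint
sets get disjoint colour sets, and there are `(2 n + 2) d + 3` colours. A set `U` of size `n + 1`
is red if its `n`-subsets see at most `(n + 1) d + 1` colours together; `U` or its complement is
red. Between two `n`-subsets of a red set at most `d` colours are lost, so there is no red
geodesic of length `n - 1`.
-/

set_option autoImplicit false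

namespace Pool.Agent.Lib.MP_6805b2_co.GE

open Finset

variable {V C : Type} [DecidableEq V] [DecidableEq C]

/-- the colours seen by the `n`-subsets of `U` -/
def WU (W : Finset V → Finset C) (n : ℕ) (U : Finset V) : Finset C := (U.powersetCard n).biUnion W

theorem sub_WU (W : Finset V → Finset C) (n : ℕ) (U A : Finset V) (hA : A ⊆ U) (h : A.card = n) :
    W A ⊆ WU W n U := by
  intro c hc
  exact mem_biUnion.2 ⟨A, mem_powersetCard.2 ⟨hA, h⟩, hc⟩

theorem lose (W : Finset V → Finset C) (n d : ℕ) (hW : ∀ A : Finset V, A.card = n →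
    1 + n * d ≤ (W A).card) (U A B : Finset V) (hU : (WU W n U).card ≤ 1 + (n + 1) * d)
    (hA : A ⊆ U) (hAn : A.card = n) (hB : B ⊆ U) (hBn : B.card = n) :
    (W A \ W B).card ≤ d := by
  have h1 : (W A \ W B) ∪ W B ⊆ WU W n U := by
    apply union_subset
    · exact sdiff_subset.trans (sub_WU W n U A hA hAn)
    · exact sub_WU W n U B hB hBn
  have h2 := card_le_card h1
  rw [card_union_of_disjoint sdiff_disjoint] at h2
  have h3 := hW B hBn
  have h4 : (n + 1) * d = n * d + d := by ring
  omega

theorem lose_walk (W : Finset V → Finset C) (n d : ℕ) (hW : ∀ A : Finset V, A.card = n →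
    1 + n * d ≤ (W A).card) (k : ℕ) (U U' A B : Finset V)
    (h : Wk (fun U => (WU W n U).card ≤ 1 + (n + 1) * d) (n + 1) k U U')
    (hA : A ⊆ U) (hAn : A.card = n) (hB : B ⊆ U') (hBn : B.card = n) :
    (W A \ W B).card ≤ (k + 1) * d := by
  induction k generalizing U A with
  | zero =>
    obtain ⟨rfl, _, hr⟩ := h
    simpa using lose W n d hW U A B hr hA hAn hB hBn
  | succ k ih =>
    obtain ⟨⟨hUc, hUr⟩, U1, hd, hw⟩ := h
    have hU1 := hw.fst
    have c1 : (symmDiff U U1).card = (U \ U1).card + (U1 \ U).card := by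
      have : symmDiff U U1 = (U \ U1) ∪ (U1 \ U) := rfl
      rw [this, card_union_of_disjoint]
      exact disjoint_sdiff_sdiff
    have c2 : (U \ U1).card + (U ∩ U1).card = U.card := card_sdiff_add_card_inter U U1
    have c3 : (U1 \ U).card + (U ∩ U1).card = U1.card := by
      rw [inter_comm]; exact card_sdiff_add_card_inter U1 U
    have hU1c := hU1.1
    obtain ⟨D, hD, hDn⟩ := exists_subset_card_eq (s := U ∩ U1) (n := n) (by omega)
    have h1 := lose W n d hW U A D hUr hA hAn (hD.trans inter_subset_left) hDn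
    have h2 := ih U1 D hw (hD.trans inter_subset_right) hDn
    have h3 : W A \ W B ⊆ (W A \ W D) ∪ (W D \ W B) := by
      intro z hz
      simp only [mem_union, mem_sdiff] at hz ⊢
      tauto
    have h4 := (card_le_card h3).trans (card_union_le _ _)
    have h5 : (k + 1 + 1) * d = (k + 1) * d + d := by ring
    omega

/-- if every antipodal family has a geodesic of length `n - 1` there is no such `W` -/
theorem no_W [Fintype V] [Fintype C] (W : Finset V → Finset C) (n d : ℕ) (hn : 1 ≤ n)
    (hV : Fintype.card V = 2 * (n + 1)) (hC : Fintype.card C ≤ (2 * n + 2) * d + 3)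
    (hW : ∀ A : Finset V, A.card = n → 1 + n * d ≤ (W A).card)
    (hdj : ∀ A B : Finset V, A.card = n → B.card = n → Disjoint A B → Disjoint (W A) (W B))
    (hgeo : ∀ red : Finset V → Prop, (∀ A : Finset V, A.card = n + 1 → red A ∨ red Aᶜ) →
      Geo red (n + 1) (n - 1)) : False := by
  have hred : ∀ A : Finset V, A.card = n + 1 → (WU W n A).card ≤ 1 + (n + 1) * d ∨
      (WU W n Aᶜ).card ≤ 1 + (n + 1) * d := by
    intro A hA
    have h1 : Disjoint (WU W n A) (WU W n Aᶜ) := by
      rw [Finset.disjoint_left]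
      intro c hc hc'
      obtain ⟨D, hD, hcD⟩ := mem_biUnion.1 hc
      obtain ⟨D', hD', hcD'⟩ := mem_biUnion.1 hc'
      rw [mem_powersetCard] at hD hD'
      have h2 : Disjoint D D' := disjoint_of_subset_left hD.1
        (disjoint_of_subset_right hD'.1 disjoint_compl_right)
      exact Finset.disjoint_left.1 (hdj D D' hD.2 hD'.2 h2) hcD hcD'
    have h3 : (WU W n A).card + (WU W n Aᶜ).card ≤ Fintype.card C := by
      rw [← card_union_of_disjoint h1]
      exact card_le_univ _
    have h4 : (2 * n + 2) * d = (n + 1) * d + (n + 1) * d := by ring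
    by_contra hcon
    push Not at hcon
    omega
  obtain ⟨U, U', hw, hd⟩ := hgeo _ hred
  have hU := hw.fst.1
  have hU' := hw.lst.1
  have hd2 := hw.dist
  have c1 : (symmDiff U U').card = (U \ U').card + (U' \ U).card := by
    have : symmDiff U U' = (U \ U') ∪ (U' \ U) := rfl
    rw [this, card_union_of_disjoint]
    exact disjoint_sdiff_sdiff
  have c2 : (U \ U').card + (U ∩ U').card = U.card := card_sdiff_add_card_inter U U'
  have c3 : (U' \ U).card + (U ∩ U').card = U'.card := by
    rw [inter_comm]; exact card_sdiff_add_card_inter U' U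
  obtain ⟨p, q, hpq, hi⟩ := card_eq_two.1 (show (U ∩ U').card = 2 by omega)
  have hp : p ∈ U ∩ U' := by rw [hi]; simp
  have hq : q ∈ U ∩ U' := by rw [hi]; simp
  rw [mem_inter] at hp hq
  have hAn : (U.erase p).card = n := by rw [card_erase_of_mem hp.1]; omega
  have hBn : (U'.erase q).card = n := by rw [card_erase_of_mem hq.2]; omega
  have h1 : Disjoint (U.erase p) (U'.erase q) := by
    rw [Finset.disjoint_left]
    intro z hz hz'
    rw [mem_erase] at hz hz'
    have h2 : z ∈ U ∩ U' := mem_inter.2 ⟨hz.2, hz'.2⟩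
    rw [hi] at h2
    simp only [mem_insert, mem_singleton] at h2
    rcases h2 with h2 | h2
    · exact hz.1 h2
    · exact hz'.1 h2
  have h2 := lose_walk W n d hW (n - 1) U U' (U.erase p) (U'.erase q) hw (erase_subset _ _) hAn
    (erase_subset _ _) hBn
  have h3 := hdj _ _ hAn hBn h1
  rw [sdiff_eq_self_of_disjoint h3] at h2
  have h4 := hW _ hAn
  have h5 : n - 1 + 1 = n := by omega
  rw [h5] at h2
  omega

/-- the Kneser graph statement for `m = 2 n + 2`, given the geodesics -/
theorem no_hom_of_geo (n q : ℕ) (hn : 1 ≤ n) (hq : 1 ≤ q)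
    (hgeo : ∀ red : Finset (Fin (2 * n + 2)) → Prop,
      (∀ A : Finset (Fin (2 * n + 2)), A.card = n + 1 → red A ∨ red Aᶜ) →
        Geo red (n + 1) (n - 1)) :
    IsEmpty
      (SimpleGraph.fromRel
          (fun s t : {s : Finset (Fin (2 * n + 2)) // s.card = n} => Disjoint s.1 t.1) →g
        SimpleGraph.fromRel
          (fun s t : {s : Finset (Fin (q * (2 * n + 2) - 2 * (n - 1) - 1)) //
            s.card = (q - 1) * n + 1} => Disjoint s.1 t.1)) := by
  refine ⟨fun φ => ?_⟩
  set W : Finset (Fin (2 * n + 2)) → Finset (Fin (q * (2 * n + 2) - 2 * (n - 1) - 1)) :=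
    fun A => if h : A.card = n then (φ ⟨A, h⟩).1 else ∅ with hWdef
  have hWA : ∀ (A : Finset (Fin (2 * n + 2))) (h : A.card = n), W A = (φ ⟨A, h⟩).1 := by
    intro A h
    rw [hWdef]
    exact dif_pos h
  obtain ⟨d, rfl⟩ : ∃ d, q = d + 1 := ⟨q - 1, by omega⟩
  refine no_W W n d hn (by rw [Fintype.card_fin]; ring) ?_ ?_ ?_ hgeo
  · rw [Fintype.card_fin]
    have h1 : (d + 1) * (2 * n + 2) = (2 * n + 2) * d + (2 * n + 2) := by ring
    omega
  · intro A hA
    rw [hWA A hA, (φ ⟨A, hA⟩).2]
    have h1 : d + 1 - 1 = d := by omega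
    rw [h1, Nat.mul_comm n d, Nat.add_comm]
  · intro A B hA hB hAB
    rw [hWA A hA, hWA B hB]
    have hne : (⟨A, hA⟩ : {s : Finset (Fin (2 * n + 2)) // s.card = n}) ≠ ⟨B, hB⟩ := by
      intro h
      have h2 : A = B := congrArg Subtype.val h
      rw [h2, disjoint_self] at hAB
      have h3 : B.card = 0 := by rw [hAB]; rfl
      omega
    have h1 := φ.map_rel ((SimpleGraph.fromRel_adj _ _ _).2 ⟨hne, Or.inl hAB⟩)
    rw [SimpleGraph.fromRel_adj] at h1
    rcases h1.2 with h | h
    · exact h
    · exact h.symm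

/-- Stahl's conjecture for `m = 2 n + 2`, `n <= 5` and all `q` -/
theorem no_hom (n q : ℕ) (hn : 1 ≤ n) (hn5 : n ≤ 5) (hq : 1 ≤ q) :
    IsEmpty
      (SimpleGraph.fromRel
          (fun s t : {s : Finset (Fin (2 * n + 2)) // s.card = n} => Disjoint s.1 t.1) →g
        SimpleGraph.fromRel
          (fun s t : {s : Finset (Fin (q * (2 * n + 2) - 2 * (n - 1) - 1)) //
            s.card = (q - 1) * n + 1} => Disjoint s.1 t.1)) :=
  no_hom_of_geo n q hn hq fun _ h =>
    exists_geo (by rw [Fintype.card_fin]; ring) h (n - 1) (by omega) (by omega)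

end Pool.Agent.Lib.MP_6805b2_co.GE
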